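import Mathlib

/-!
# Density characters of `ℓ¹`-sums
-/

open scoped ENNReal BigOperators Topology
open Filter TopologicalSpace Cardinal

namespace Pool.Agent.Y921.PL

/-- A subset of a space with a dense set of cardinality `κ` has a dense subset of cardinality at
most `κ * ℵ₀`. -/
theorem exists_dense_sub {Z : Type} [PseudoMetricSpace Z] (S C : Set Z) (h : S ⊆ closure C) :
    ∃ D ⊆ S, S ⊆ closure D ∧ #D ≤ #C * ℵ₀ := by
  classical
  let P : Set (C × ℕ) := {p | ∃ s ∈ S, dist s (p.1 : Z) < 1 / ((p.2 : ℝ) + 1)}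
  have hch : ∀ p : P, ∃ s ∈ S, dist s (p.1.1 : Z) < 1 / ((p.1.2 : ℝ) + 1) := fun p => p.2
  choose f hfS hf using hch
  refine ⟨Set.range f, ?_, ?_, ?_⟩
  · rintro _ ⟨p, rfl⟩
    exact hfS p
  · intro s hs
    rw [Metric.mem_closure_iff]
    intro ε hε
    obtain ⟨n, hn⟩ := exists_nat_one_div_lt (half_pos hε)
    obtain ⟨c, hc, hsc⟩ := Metric.mem_closure_iff.1 (h hs) (1 / ((n : ℝ) + 1)) (by positivity)
    let p : P := ⟨(⟨c, hc⟩, n), ⟨s, hs, hsc⟩⟩
    refine ⟨f p, ⟨p, rfl⟩, ?_⟩
    have h1 : dist (f p) c < 1 / ((n : ℝ) + 1) := hf p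
    have h2 := dist_triangle s c (f p)
    rw [dist_comm c] at h2
    linarith
  · calc #(Set.range f) ≤ #P := mk_range_le
      _ ≤ #(C × ℕ) := mk_set_le P
      _ = #C * ℵ₀ := by rw [mk_prod, lift_id, lift_id, mk_nat]

section L1

variable {J : Type} {E : Type} [NormedAddCommGroup E] [NormedSpace ℝ E]

/-- Families whose coordinates lie in given separable sets lie in the closure of a set of
cardinality at most that of the index set. -/
theorem exists_dense_l1 [Infinite J] (V : J → Set E) (hV : ∀ j, IsSeparable (V j)) :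
    ∃ C : Set (lp (fun _ : J => E) 1), #C ≤ #J ∧
      ∀ b : lp (fun _ : J => E) 1, (∀ j, b j ∈ V j) → b ∈ closure C := by
  classical
  have h1 : ∀ j, ∃ d : ℕ → E, V j ⊆ closure (Set.range d) := by
    intro j
    obtain ⟨c, hc, hVc⟩ := hV j
    obtain ⟨d, hd⟩ := (hc.insert 0).exists_eq_range (Set.insert_nonempty 0 c)
    refine ⟨d, ?_⟩
    rw [← hd]
    exact hVc.trans (closure_mono (Set.subset_insert 0 c))
  choose d hd using h1
  let F : Finset (J × ℕ) → lp (fun _ : J => E) 1 := fun G =>
    ∑ p ∈ G, lp.single (E := fun _ : J => E) 1 p.1 (d p.1 p.2)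
  refine ⟨Set.range F, ?_, ?_⟩
  · calc #(Set.range F) ≤ #(Finset (J × ℕ)) := mk_range_le
      _ = #(J × ℕ) := mk_finset_of_infinite _
      _ = #J := by
        rw [mk_prod, lift_id, lift_id, mk_nat]
        exact mul_aleph0_eq (aleph0_le_mk J)
  · intro b hb
    have hs : HasSum (fun j => lp.single (E := fun _ : J => E) 1 j (b j)) b :=
      lp.hasSum_single (by simp) _
    refine isClosed_closure.mem_of_tendsto hs (Eventually.of_forall fun s => ?_)
    rw [Metric.mem_closure_iff]
    intro ε hε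
    have h2 : ∀ j, ∃ n, dist (b j) (d j n) < ε / (s.card + 1) := by
      intro j
      obtain ⟨_, ⟨n, rfl⟩, hn⟩ := Metric.mem_closure_iff.1 (hd j (hb j)) (ε / (s.card + 1))
        (by positivity)
      exact ⟨n, hn⟩
    choose n hn using h2
    refine ⟨F (s.image fun j => (j, n j)), ⟨_, rfl⟩, ?_⟩
    have h3 : F (s.image fun j => (j, n j)) =
        ∑ j ∈ s, lp.single (E := fun _ : J => E) 1 j (d j (n j)) := by
      show ∑ p ∈ s.image (fun j => (j, n j)), lp.single (E := fun _ : J => E) 1 p.1 (d p.1 p.2) = _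
      rw [Finset.sum_image]
      intro x _ y _ hxy
      exact congrArg Prod.fst hxy
    rw [h3, dist_eq_norm, ← Finset.sum_sub_distrib]
    have h4 : ∀ j ∈ s, ‖lp.single (E := fun _ : J => E) 1 j (b j) -
        lp.single (E := fun _ : J => E) 1 j (d j (n j))‖ ≤ ε / (s.card + 1) := by
      intro j _
      have e1 : lp.single (E := fun _ : J => E) 1 j (b j) -
          lp.single (E := fun _ : J => E) 1 j (d j (n j)) =
          lp.single (E := fun _ : J => E) 1 j (b j - d j (n j)) := by
        have := map_sub (lp.singleContinuousLinearMap ℝ (fun _ : J => E) 1 j) (b j) (d j (n j))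
        exact this.symm
      rw [e1, lp.norm_single (E := fun _ : J => E) zero_lt_one, ← dist_eq_norm]
      exact (hn j).le
    calc ‖∑ j ∈ s, (lp.single (E := fun _ : J => E) 1 j (b j) -
        lp.single (E := fun _ : J => E) 1 j (d j (n j)))‖
        ≤ ∑ j ∈ s, ε / (s.card + 1) := (norm_sum_le _ _).trans (Finset.sum_le_sum h4)
      _ = s.card * (ε / (s.card + 1)) := by rw [Finset.sum_const, nsmul_eq_mul]
      _ < ε := by
        rw [mul_div_assoc', div_lt_iff₀ (by positivity)]
        nlinarith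

end L1

end Pool.Agent.Y921.PL
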