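import Pool.Agent.Y921.PL.Space

/-!
# Preduals of `ℓ∞(K)` which are not complemented in Plichko spaces
-/

open scoped ENNReal BigOperators Topology
open Filter TopologicalSpace Cardinal

namespace Pool.Agent.Y921.PL

open Pool.Agent.Helper893.V

/-- The density character of `X` is the cardinality of `K`. -/
def DensityEq (X : Type) [TopologicalSpace X] (K : Type) : Prop :=
  (∃ D : Set X, Dense D ∧ #D ≤ #K) ∧ ∀ D : Set X, Dense D → #K ≤ #D

theorem isPlichko_of_separable (X : Type) [NormedAddCommGroup X] [NormedSpace ℝ X]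
    [SeparableSpace X] : IsPlichko X := by
  obtain ⟨S, hS, hSd⟩ := exists_countable_dense X
  refine ⟨S, ⊤, hSd.mono Submodule.subset_span, ?_, fun f _ => hS.mono fun s hs => hs.1⟩
  refine IsNorming.of (c := 1) one_pos ?_
  intro x
  obtain ⟨f, hf1, hfx⟩ := exists_dual_vector'' ℝ x
  refine ⟨f, Submodule.mem_top, hf1, ?_⟩
  rw [hfx, one_mul]
  simp

/-- A set of branches of cardinality `ℵ₁`. -/
theorem exists_branches : ∃ A : Set (ℕ → Bool), #A = ℵ₁ := by
  have h : ℵ₁ ≤ #(ℕ → Bool) := by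
    have h1 : #(ℕ → Bool) = 𝔠 := by simp
    rw [h1, ← succ_aleph0]
    exact Order.succ_le_of_lt aleph0_lt_continuum
  exact le_mk_iff_exists_set.1 h

variable (A : Set (ℕ → Bool)) (K : Type)

/-- The space. -/
abbrev XX : Type := kerSpace (FA A) × lp (fun _ : ℕ × K => ℝ) 1

theorem completeXX : CompleteSpace (XX A K) := by
  have hc : CompleteSpace (kerSpace (FA A)) :=
    (isClosed_kerSpace (fun j => isClosed_FF (SA A j))).completeSpace_coe
  infer_instance

theorem card_JA (hA : #A = ℵ₁) : #(JA A) = ℵ₁ := by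
  rw [mk_sum, lift_id, lift_id, mk_nat, hA]
  exact add_eq_right (aleph0_le_aleph 1) (aleph0_le_aleph 1)

theorem aleph_one_le [hK : Uncountable K] : ℵ₁ ≤ #K := by
  rw [← succ_aleph0]
  exact Order.succ_le_of_lt (aleph0_lt_mk_iff.2 hK)

theorem densityXX (hA : #A = ℵ₁) [Uncountable K] : DensityEq (XX A K) K := by
  classical
  have hAK : ℵ₁ ≤ #K := aleph_one_le K
  have hinfK : Infinite K := infinite_iff.2 ((aleph0_le_aleph 1).trans hAK)
  have hKK : #K * #K = #K := mul_eq_self (aleph0_le_mk K)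
  constructor
  · -- the first factor
    have hJ : Infinite (JA A) := inferInstance
    obtain ⟨C, hC, hCd⟩ := exists_dense_l1 (fun j : JA A => (FA A j : Set EE))
      (fun j => isSeparable_FF _)
    let S : Set (lp (fun _ : JA A => EE) 1) := kerSpace (FA A)
    have hSC : S ⊆ closure C := fun b hb => hCd b (mem_kerSpace.1 hb).2
    obtain ⟨D, hDS, hSD, hD⟩ := exists_dense_sub S C hSC
    let D1 : Set (kerSpace (FA A)) := {b | (b : lp (fun _ : JA A => EE) 1) ∈ D}
    have hD1 : Dense D1 := by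
      intro b
      rw [Metric.mem_closure_iff]
      intro ε hε
      obtain ⟨d, hd, hbd⟩ := Metric.mem_closure_iff.1 (hSD b.2) ε hε
      exact ⟨⟨d, hDS hd⟩, hd, hbd⟩
    have hD1c : #D1 ≤ #K := by
      have e1 : #D1 ≤ #D := by
        let g : D1 → D := fun b => ⟨(b.1 : lp (fun _ : JA A => EE) 1), b.2⟩
        have hg : Function.Injective g := by
          intro b b' h
          have := congrArg Subtype.val h
          exact Subtype.ext (Subtype.ext this)
        exact mk_le_of_injective hg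
      calc #D1 ≤ #D := e1
        _ ≤ #C * ℵ₀ := hD
        _ ≤ #(JA A) * ℵ₀ := mul_le_mul_left hC _
        _ = ℵ₁ := by
          rw [card_JA A hA]
          exact mul_aleph0_eq (aleph0_le_aleph 1)
        _ ≤ #K := hAK
    -- the second factor
    obtain ⟨C2, hC2, hC2d⟩ := exists_dense_l1 (fun _ : ℕ × K => (Set.univ : Set ℝ))
      (fun _ => isSeparable_univ_iff.2 inferInstance)
    have hC2' : Dense C2 := fun b => hC2d b (fun _ => Set.mem_univ _)
    have hC2c : #C2 ≤ #K := by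
      refine hC2.trans ?_
      rw [mk_prod, lift_id, lift_id, mk_nat]
      exact (aleph0_mul_eq (aleph0_le_mk K)).le
    refine ⟨D1 ×ˢ C2, hD1.prod hC2', ?_⟩
    calc #(D1 ×ˢ C2 : Set (XX A K)) = #(D1 × C2) := mk_congr (Equiv.Set.prod D1 C2)
      _ = #D1 * #C2 := by rw [mk_prod, lift_id, lift_id]
      _ ≤ #K * #K := mul_le_mul' hD1c hC2c
      _ = #K := hKK
  · intro D hD
    let ek : K → XX A K := fun k => (0, lp.single 1 ((0 : ℕ), k) (1 : ℝ))
    have h1 : ∀ k, ∃ d ∈ D, dist (ek k) d < 1 / 2 := fun k => by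
      obtain ⟨d, hd, hkd⟩ := Metric.mem_closure_iff.1 (hD (ek k)) (1 / 2) (by norm_num)
      exact ⟨d, hd, hkd⟩
    choose d hdD hd using h1
    let g : K → D := fun k => ⟨d k, hdD k⟩
    have hg : Function.Injective g := by
      intro k l hkl
      by_contra hne
      have h2 : d k = d l := congrArg Subtype.val hkl
      have h3 : dist (ek k) (ek l) < 1 := by
        have h4 := dist_triangle (ek k) (d k) (ek l)
        have h5 := hd k
        have h6 := hd l
        rw [← h2, dist_comm] at h6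
        linarith
      have h7 : ‖(lp.single 1 ((0 : ℕ), k) (1 : ℝ) : lp (fun _ : ℕ × K => ℝ) 1) -
          lp.single 1 ((0 : ℕ), l) 1‖ ≤ dist (ek k) (ek l) := by
        rw [dist_eq_norm]
        exact le_max_right _ _
      have h8 : ‖((lp.single 1 ((0 : ℕ), k) (1 : ℝ) : lp (fun _ : ℕ × K => ℝ) 1) -
          lp.single 1 ((0 : ℕ), l) 1 : lp (fun _ : ℕ × K => ℝ) 1) (0, k)‖ ≤
          ‖(lp.single 1 ((0 : ℕ), k) (1 : ℝ) : lp (fun _ : ℕ × K => ℝ) 1) -
          lp.single 1 ((0 : ℕ), l) 1‖ := lp.norm_apply_le_norm (by simp) _ _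
      have h9 : ((lp.single 1 ((0 : ℕ), k) (1 : ℝ) : lp (fun _ : ℕ × K => ℝ) 1) -
          lp.single 1 ((0 : ℕ), l) 1 : lp (fun _ : ℕ × K => ℝ) 1) (0, k) = 1 := by
        rw [lp.coeFn_sub, Pi.sub_apply, lp.single_apply_self, lp.single_apply_ne, sub_zero]
        intro h
        exact hne (congrArg Prod.snd h)
      rw [h9, norm_one] at h8
      linarith
    exact mk_le_of_injective hg

theorem dualXX (hA : #A = ℵ₁) [Uncountable K] :
    Nonempty ((XX A K →L[ℝ] ℝ) ≃L[ℝ] Linf K) := by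
  classical
  have hAK : ℵ₁ ≤ #K := aleph_one_le K
  have hinfK : Infinite K := infinite_iff.2 ((aleph0_le_aleph 1).trans hAK)
  obtain ⟨j, ψ, hψ⟩ := exists_embedA A
  have hM : #(ℕ × JA A × Finset ℕ) ≤ #K := by
    refine le_trans ?_ hAK
    rw [mk_prod, mk_prod, lift_id, lift_id, lift_id, lift_id, mk_nat, card_JA A hA,
      mk_finset_of_infinite, mk_nat]
    refine (mul_le_mul' le_rfl (mul_aleph0_eq (aleph0_le_aleph 1)).le).trans ?_
    exact (aleph0_mul_eq (aleph0_le_aleph 1)).le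
  obtain ⟨ι⟩ := Cardinal.le_def _ _ |>.1 hM
  have hne : Nonempty (ℕ × JA A × Finset ℕ) := ⟨(0, Sum.inl 0, ∅)⟩
  let r : K → ℕ × JA A × Finset ℕ := Function.invFun ι
  have hr : ∀ m, r (ι m) = m := fun m => Function.leftInverse_invFun ι.injective m
  let j' : (kerSpace (FA A) →L[ℝ] ℝ) →L[ℝ] Linf K := (compL r).comp j
  let ψ' : Linf K →L[ℝ] (kerSpace (FA A) →L[ℝ] ℝ) := ψ.comp (compL ι)
  have hψ' : ∀ x, ψ' (j' x) = x := by
    intro x
    show ψ (compL ι (compL r (j x))) = x
    have : compL ι (compL r (j x)) = j x := by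
      apply lp.ext
      funext m
      rw [compL_apply, compL_apply, hr]
    rw [this, hψ]
  obtain ⟨e⟩ := pel j' ψ' hψ'
  have hcard : #(ℕ × K) = #K := by
    rw [mk_prod, lift_id, lift_id, mk_nat]
    exact aleph0_mul_eq (aleph0_le_mk K)
  obtain ⟨e2⟩ := Cardinal.eq.1 hcard
  exact ⟨e.trans (equivL e2)⟩

theorem not_factor (hA : #A = ℵ₁) : ∃ W : Set (XX A K), W.Countable ∧
    (∀ T : XX A K →L[ℝ] XX A K, IsSeparable (Set.range T) → ∃ w ∈ W, T w ≠ w) ∧
    ∀ (Y : Type) [NormedAddCommGroup Y] [NormedSpace ℝ Y] [CompleteSpace Y], IsPlichko Y →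
      ∀ (u : XX A K →L[ℝ] Y) (v : Y →L[ℝ] XX A K), ∃ w ∈ W, v (u w) ≠ w := by
  have hunc : ¬ A.Countable := by
    intro h
    have h1 : #A ≤ ℵ₀ := Cardinal.le_aleph0_iff_set_countable.2 h
    rw [hA] at h1
    exact absurd h1 (not_le.2 aleph0_lt_aleph_one)
  obtain ⟨C, hCW, hCc, hWC⟩ := (isSeparable_WA A).exists_countable_dense_subset
  let inl : kerSpace (FA A) →L[ℝ] XX A K := ContinuousLinearMap.inl ℝ _ _
  have key : ∀ T : XX A K →L[ℝ] XX A K, IsSeparable (Set.range T) →
      ∃ w ∈ inl '' C, T w ≠ w := by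
    intro T hT
    by_contra hcon
    push Not at hcon
    let Q : kerSpace (FA A) →L[ℝ] kerSpace (FA A) :=
      ((ContinuousLinearMap.fst ℝ (kerSpace (FA A)) (lp (fun _ : ℕ × K => ℝ) 1)).comp T).comp inl
    have hQ : ∀ b, Q b = (T (b, 0)).1 := fun b => rfl
    refine not_opA A hunc Q ?_ ?_
    · intro b hb
      have hcl : IsClosed {b : kerSpace (FA A) | Q b = b} :=
        isClosed_eq Q.continuous continuous_id
      have hsub : C ⊆ {b : kerSpace (FA A) | Q b = b} := by
        intro b hb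
        have h2 : T (b, 0) = (b, 0) := hcon _ ⟨b, hb, rfl⟩
        change Q b = b
        rw [hQ, h2]
      exact closure_minimal hsub hcl (hWC hb)
    · refine (hT.image continuous_fst).mono ?_
      rintro _ ⟨b, rfl⟩
      exact ⟨T (b, 0), ⟨(b, 0), rfl⟩, rfl⟩
  refine ⟨inl '' C, hCc.image _, key, ?_⟩
  intro Y _ _ _ hY u v
  obtain ⟨R, hRs, hR⟩ := hY.exists_op (u '' (inl '' C)) ((hCc.image _).image _)
  have hsep : IsSeparable (Set.range (v.comp (R.comp u))) := by
    refine (hRs.image v.continuous).mono ?_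
    rintro _ ⟨b, rfl⟩
    exact ⟨R (u b), ⟨u b, rfl⟩, rfl⟩
  obtain ⟨w, hw, hne⟩ := key (v.comp (R.comp u)) hsep
  refine ⟨w, hw, ?_⟩
  intro h
  apply hne
  show v (R (u w)) = w
  rw [hR (u w) ⟨w, hw, rfl⟩, h]

end Pool.Agent.Y921.PL
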