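import Pool.Agent.Helper893.V.Space
import Pool.Agent.Y921.PL.Dens

/-!
# The space over an uncountable set of branches
-/

open scoped ENNReal BigOperators Topology
open Filter TopologicalSpace

namespace Pool.Agent.Y921.PL

open Pool.Agent.Helper893.V

variable (A : Set (ℕ → Bool))

/-- The index set. -/
abbrev JA : Type := ℕ ⊕ A

/-- The family of sets. -/
def SA : JA A → Set ℕ
  | Sum.inl n => {k | k < n}
  | Sum.inr x => Set.range (code x.1)

/-- The model space. -/
noncomputable abbrev FA (j : JA A) : Submodule ℝ EE := FF (SA A j)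

theorem free_SA (x : A) (G : Finset (JA A)) (hG : Sum.inr x ∉ G) (K : Finset ℕ) :
    ∃ γ ∈ SA A (Sum.inr x), γ ∉ K ∧ ∀ j ∈ G, γ ∉ SA A j := by
  have hinj : Function.Injective (code x.1) := fun n m h => (code_inj h).1
  have htend : Tendsto (code x.1) atTop atTop := hinj.nat_tendsto_atTop
  have h1 : ∀ᶠ n in atTop, code x.1 n ∉ K := by
    filter_upwards [htend.eventually_ge_atTop (K.sup id + 1)] with n hn hK
    have : code x.1 n ≤ K.sup id := Finset.le_sup (f := id) hK
    omega
  have h2 : ∀ᶠ n in atTop, ∀ j ∈ G, code x.1 n ∉ SA A j := by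
    rw [Filter.eventually_all_finset]
    intro j hj
    cases j with
    | inl m =>
      filter_upwards [htend.eventually_ge_atTop m] with n hn h
      have : code x.1 n < m := h
      omega
    | inr y =>
      have hne : x.1 ≠ y.1 := by
        intro h
        have : x = y := Subtype.ext h
        subst this
        exact hG hj
      obtain ⟨k, hk⟩ : ∃ k, x.1 k ≠ y.1 k := by
        by_contra hcon
        push Not at hcon
        exact hne (funext hcon)
      filter_upwards [eventually_gt_atTop k] with n hn h
      obtain ⟨m, hm⟩ := h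
      exact hk ((code_inj hm.symm).2 k hn)
  obtain ⟨n, hn1, hn2⟩ := (h1.and h2).exists
  exact ⟨code x.1 n, ⟨n, rfl⟩, hn1, hn2⟩

/-- The space of families supported on the countable part. -/
noncomputable def WA : Submodule ℝ (kerSpace (FA A)) :=
  ⨅ x : A, LinearMap.ker
    ((lp.evalCLM ℝ (fun _ : JA A => EE) 1 (Sum.inr x)).toLinearMap.comp (kerSpace (FA A)).subtype)

theorem mem_WA {b : kerSpace (FA A)} :
    b ∈ WA A ↔ ∀ x, (b : lp (fun _ : JA A => EE) 1) (Sum.inr x) = 0 := by
  unfold WA
  rw [Submodule.mem_iInf]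
  rfl

theorem isSeparable_FF (S : Set ℕ) : IsSeparable (FF S : Set EE) := by
  have h : (FF S : Set EE) ⊆ closure (Submodule.span ℝ (Set.range wE) : Set EE) := by
    rw [← Submodule.topologicalClosure_coe]
    have h1 : FF S ≤ (Submodule.span ℝ (Set.range wE)).topologicalClosure := by
      apply Submodule.topologicalClosure_minimal
      · rw [Submodule.span_le]
        rintro _ ⟨S, _, rfl⟩
        exact Submodule.le_topologicalClosure _ (Submodule.subset_span ⟨S, rfl⟩)
      · exact Submodule.isClosed_topologicalClosure _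
    exact h1
  exact (((Set.countable_range wE).isSeparable.span (R := ℝ)).closure).mono h

theorem isSeparable_WA : IsSeparable (WA A : Set (kerSpace (FA A))) := by
  classical
  apply isSeparable_of_image (f := ((↑) : kerSpace (FA A) → lp (fun _ : JA A => EE) 1))
    Topology.IsInducing.subtypeVal
  let Q : Submodule ℝ (lp (fun _ : JA A => EE) 1) := (Submodule.span ℝ (Set.range
    (fun p : ℕ × Finset ℕ => lp.singleContinuousLinearMap ℝ (fun _ : JA A => EE) 1
      (Sum.inl p.1) (wE p.2)))).topologicalClosure
  have hQs : IsSeparable (Q : Set (lp (fun _ : JA A => EE) 1)) := by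
    have h1 : IsSeparable (Set.range
      (fun p : ℕ × Finset ℕ => lp.singleContinuousLinearMap ℝ (fun _ : JA A => EE) 1
      (Sum.inl p.1) (wE p.2))) := (Set.countable_range _).isSeparable
    exact (h1.span (R := ℝ)).closure
  have hQc : IsClosed (Q : Set (lp (fun _ : JA A => EE) 1)) :=
    Submodule.isClosed_topologicalClosure _
  refine hQs.mono ?_
  rintro _ ⟨b, hb, rfl⟩
  have hbW := (mem_WA A).1 hb
  have hbm := mem_kerSpace.1 b.2
  have hs : HasSum (fun j => lp.single (E := fun _ : JA A => EE) 1 j
    ((b : lp (fun _ : JA A => EE) 1) j)) (b : lp (fun _ : JA A => EE) 1) :=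
    lp.hasSum_single (by simp) _
  have hterm : ∀ j, lp.single (E := fun _ : JA A => EE) 1 j
    ((b : lp (fun _ : JA A => EE) 1) j) ∈ Q := by
    intro j
    cases j with
    | inl n =>
      have h1 : FF (SA A (Sum.inl n)) ≤ Q.comap
          (lp.singleContinuousLinearMap ℝ (fun _ : JA A => EE) 1 (Sum.inl n)).toLinearMap := by
        apply Submodule.topologicalClosure_minimal
        · rw [Submodule.span_le]
          rintro _ ⟨S, _, rfl⟩
          exact Submodule.le_topologicalClosure _ (Submodule.subset_span ⟨(n, S), rfl⟩)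
        · exact hQc.preimage
            (lp.singleContinuousLinearMap ℝ (fun _ : JA A => EE) 1 (Sum.inl n)).continuous
      exact h1 (hbm.2 _)
    | inr x =>
      have h2 : lp.single (E := fun _ : JA A => EE) 1 (Sum.inr x)
          ((b : lp (fun _ : JA A => EE) 1) (Sum.inr x)) = 0 := by
        rw [hbW x]
        exact map_zero (lp.singleContinuousLinearMap ℝ (fun _ : JA A => EE) 1 (Sum.inr x))
      rw [h2]
      exact Q.zero_mem
  exact hQc.mem_of_tendsto hs (Filter.Eventually.of_forall fun s =>
    Submodule.sum_mem _ (fun j _ => hterm j))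

theorem not_opA (hA : ¬ A.Countable) (P : kerSpace (FA A) →L[ℝ] kerSpace (FA A))
    (hW : ∀ b ∈ WA A, P b = b) (hs : IsSeparable (Set.range P)) : False := by
  classical
  obtain ⟨c, hc, hPc⟩ := hs
  have hU : (⋃ y ∈ c, {j : JA A |
      ((y : kerSpace (FA A)) : lp (fun _ : JA A => EE) 1) j ≠ 0}).Countable := by
    apply hc.biUnion
    intro y _
    have h1 : Summable (fun j => ‖((y : kerSpace (FA A)) : lp (fun _ : JA A => EE) 1) j‖) := by
      have := (lp.memℓp ((y : kerSpace (FA A)) : lp (fun _ : JA A => EE) 1)).summable (by simp)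
      simpa using this
    refine h1.countable_support.mono ?_
    intro j hj
    simpa using hj
  have hx : ∃ x : A, Sum.inr x ∉
      (⋃ y ∈ c, {j : JA A | ((y : kerSpace (FA A)) : lp (fun _ : JA A => EE) 1) j ≠ 0}) := by
    by_contra hcon
    push Not at hcon
    have h1 : (Set.univ : Set A).Countable := by
      have := hU.preimage (f := (Sum.inr : A → JA A)) Sum.inr_injective
      refine this.mono ?_
      intro x _
      exact hcon x
    exact hA (Set.countable_univ_iff.1 h1 |>.to_set)
  obtain ⟨x, hx⟩ := hx
  have hzero : ∀ y ∈ c, ((y : kerSpace (FA A)) : lp (fun _ : JA A => EE) 1) (Sum.inr x) = 0 := by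
    intro y hy
    by_contra h
    exact hx (Set.mem_biUnion hy h)
  have hzero' : ∀ b, ((P b : kerSpace (FA A)) : lp (fun _ : JA A => EE) 1) (Sum.inr x) = 0 := by
    intro b
    have h1 : P b ∈ closure c := hPc ⟨b, rfl⟩
    have h2 : IsClosed {y : kerSpace (FA A) |
        ((y : kerSpace (FA A)) : lp (fun _ : JA A => EE) 1) (Sum.inr x) = 0} := by
      apply isClosed_eq _ continuous_const
      exact (lp.evalCLM ℝ (fun _ : JA A => EE) 1 (Sum.inr x)).continuous.comp
        continuous_subtype_val
    exact (closure_minimal hzero h2) h1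
  refine no_operator (𝕜 := ℝ) (FA A) (SA A) (fun γ => wE {γ}) phi norm_phi_le ?_ ?_ ?_ 1 ?_
    (Set.range Sum.inl) (Sum.inr x) ?_ ?_ (free_SA A x) P ?_ hzero'
  · intro γ
    rw [phi_wE, if_pos rfl]
  · intro j γ hγ
    exact wE_mem_FF (by simpa using hγ)
  · intro j γ hγ
    exact phi_FF hγ
  · intro K θ hθ
    rw [one_mul]
    exact norm_sum_rad K θ hθ
  · rintro ⟨n, hn⟩
    exact Sum.inl_ne_inr hn
  · intro K _
    refine ⟨Sum.inl (K.sup id + 1), ⟨_, rfl⟩, ?_⟩
    intro k hk
    have : k ≤ K.sup id := Finset.le_sup (f := id) hk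
    show k < K.sup id + 1
    omega
  · intro b hb
    apply hW
    rw [mem_WA]
    intro y
    apply hb
    rintro ⟨n, hn⟩
    exact Sum.inl_ne_inr hn

theorem exists_embedA : ∃ (jm : (kerSpace (FA A) →L[ℝ] ℝ) →L[ℝ] Linf (ℕ × JA A × Finset ℕ))
      (ψ : Linf (ℕ × JA A × Finset ℕ) →L[ℝ] (kerSpace (FA A) →L[ℝ] ℝ)), ∀ x, ψ (jm x) = x := by
  classical
  exact embed (FA A) (fun m => Sum.inl m) (fun m => (Finset.range m).powerset) cE
    sum_cE_le (fun j m s => hh (SA A j) m s) (fun j m s => norm_hh_le _ _ _)
    (fun j m s => hh_mem (fun k hk _ => hk) s) (fun j m s => hh_mem (fun k _ hk => hk) s)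
    DE norm_DE_le (fun m j => sum_hh (SA A j) m) (fun j => tendsto_DE (SA A j))

/-- Composition with a map, as an operator between spaces of bounded families. -/
noncomputable def compL {M K : Type} (r : K → M) : Linf M →L[ℝ] Linf K :=
  LinearMap.mkContinuous
    { toFun := fun f => ⟨fun k => f (r k), memℓp_infty ⟨‖f‖, by
        rintro _ ⟨k, rfl⟩
        exact linf_apply_le f (r k)⟩⟩
      map_add' := fun f g => rfl
      map_smul' := fun a f => rfl }
    1 (fun f => by
      rw [one_mul]
      exact linf_norm_le (norm_nonneg _) (fun k => linf_apply_le f (r k)))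

theorem compL_apply {M K : Type} (r : K → M) (f : Linf M) (k : K) : compL r f k = f (r k) := rfl

/-- Bijections of index sets give isomorphisms. -/
noncomputable def equivL {M K : Type} (e : M ≃ K) : Linf M ≃L[ℝ] Linf K :=
  ContinuousLinearEquiv.equivOfInverse (compL e.symm) (compL e)
    (fun f => by
      apply lp.ext
      funext m
      rw [compL_apply, compL_apply, e.symm_apply_apply])
    (fun f => by
      apply lp.ext
      funext m
      rw [compL_apply, compL_apply, e.apply_symm_apply])

end Pool.Agent.Y921.PL
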